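import Pool.Agent.H.MP_459ac8_an.D

set_option autoImplicit false
open Filter Topology MeasureTheory
open scoped ENNReal

namespace Pool.Agent.Results.MP_459ac8_an.ZeroDensity

theorem result (p : ℝ≥0∞) (hp1 : 1 ≤ p) (hp : p ≠ ∞) :
    ∃ Λ : ℕ → ℂ, Function.Injective Λ ∧ (∀ n, ‖Λ n‖ < 1) ∧
      (∀ r : ℝ, r < 1 → {n | ‖Λ n‖ < r}.Finite) ∧
      Tendsto (fun r : ℝ => (1 - r) * ({n | ‖Λ n‖ < r}.ncard : ℝ)) (𝓝[<] 1) (𝓝 0) ∧
      ∀ f : AddCircle (1 : ℝ) → ℂ, MemLp f p AddCircle.haarAddCircle →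
        (∀ n : ℤ, n < 0 → fourierCoeff f n = 0) →
        ∃ c : ℕ → ℂ, Tendsto (fun N : ℕ => eLpNorm
          (fun x => f x - ∑ k ∈ Finset.range N,
            c k * (1 - starRingEnd ℂ (Λ k) * (AddCircle.toCircle x : ℂ))⁻¹)
          p AddCircle.haarAddCircle) atTop (𝓝 0) := by
  have : Fact (1 ≤ p) := ⟨hp1⟩
  obtain ⟨Λ, h1, h2, h3, h4, h5⟩ := Pool.Agent.H.MP_459ac8_an.main p hp
  refine ⟨Λ, h1, h2, h3, h4, fun f hf hc => ?_⟩
  obtain ⟨c, h6⟩ := h5 (hf.toLp f) fun n hn => by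
    rw [fourierCoeff_congr_ae hf.coeFn_toLp, hc n hn]
  refine ⟨c, ?_⟩
  rw [Lp.tendsto_Lp_iff_tendsto_eLpNorm] at h6
  refine h6.congr fun N => ?_
  rw [eLpNorm_sub_comm]
  refine eLpNorm_congr_ae ?_
  have e : ∑ i ∈ Finset.range N, c i • Pool.Agent.H.MP_459ac8_an.kk p (Λ i) =
      Pool.Agent.H.MP_459ac8_an.io p (∑ i ∈ Finset.range N,
        c i • Pool.Agent.H.MP_459ac8_an.G (starRingEnd ℂ (Λ i)) 1) := by
    simp only [map_sum, map_smul, Pool.Agent.H.MP_459ac8_an.kk]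
  rw [e]
  filter_upwards [ContinuousMap.coeFn_toLp (p := p) (𝕜 := ℂ) Pool.Agent.H.MP_459ac8_an.mu
    (∑ i ∈ Finset.range N, c i • Pool.Agent.H.MP_459ac8_an.G (starRingEnd ℂ (Λ i)) 1)] with x hx
  rw [Pi.sub_apply, hx]
  simp only [ContinuousMap.coe_sum, Finset.sum_apply, ContinuousMap.smul_apply, smul_eq_mul]
  congr 1
  refine Finset.sum_congr rfl fun i _ => ?_
  rw [Pool.Agent.H.MP_459ac8_an.G_apply (by simpa using h2 i), pow_one,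
    Pool.Agent.H.MP_459ac8_an.zz, fourier_one]

end Pool.Agent.Results.MP_459ac8_an.ZeroDensity
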